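import Pool.Agent.Y994.KW.Stm2

/-!
# Project KW, part two: modulus of continuity of the polygonal path
-/

set_option autoImplicit false

namespace Pool.Agent.Y473.KW

open Y994.KW

/-- the polygonal sum -/
noncomputable def S (y : ℕ → ℝ) (M : ℕ) (x : ℝ) : ℝ :=
  y 0 + ∑ i ∈ Finset.range M, (y (i + 1) - y i) * max 0 (min 1 (x - i))

theorem S_succ (y : ℕ → ℝ) (M : ℕ) (x : ℝ) :
    S y (M + 1) x = S y M x + (y (M + 1) - y M) * max 0 (min 1 (x - M)) := by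
  unfold S
  rw [Finset.sum_range_succ]
  ring

theorem S_of_le (y : ℕ → ℝ) (x : ℝ) : ∀ m : ℕ, (m : ℝ) ≤ x → S y m x = y m := by
  intro m
  induction m with
  | zero => intro _; simp [S]
  | succ m ih =>
    intro h
    push_cast at h
    rw [S_succ, ih (by linarith)]
    have h1 : min (1 : ℝ) (x - m) = 1 := min_eq_left (by linarith)
    rw [h1, max_eq_right (by norm_num)]
    ring

theorem S_of_lt (y : ℕ → ℝ) (x : ℝ) (k : ℕ) (h1 : (k : ℝ) ≤ x) (h2 : x < k + 1) :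
    ∀ M : ℕ, k + 1 ≤ M → S y M x = y k + (x - k) * (y (k + 1) - y k) := by
  intro M hM
  induction M, hM using Nat.le_induction with
  | base =>
    rw [S_succ, S_of_le y x k h1]
    have h3 : min (1 : ℝ) (x - k) = x - k := min_eq_right (by linarith)
    rw [h3, max_eq_right (by linarith)]
    ring
  | succ M hM ih =>
    rw [S_succ, ih]
    have h4 : (k : ℝ) + 1 ≤ M := by exact_mod_cast hM
    have h3 : min (1 : ℝ) (x - M) ≤ 0 := (min_le_right _ _).trans (by linarith)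
    rw [max_eq_left h3]
    ring

/-- the value of the polygonal sum is a convex combination of two neighbouring values -/
theorem S_conv (y : ℕ → ℝ) (M : ℕ) (x : ℝ) (h0 : 0 ≤ x) (h1 : x ≤ M) :
    ∃ (m n : ℕ) (w : ℝ), m ≤ M ∧ n ≤ M ∧ |(m : ℝ) - x| ≤ 1 ∧ |(n : ℝ) - x| ≤ 1 ∧ 0 ≤ w ∧ w ≤ 1 ∧
      S y M x = (1 - w) * y m + w * y n := by
  rcases eq_or_lt_of_le h1 with h | h
  · refine ⟨M, M, 0, le_rfl, le_rfl, ?_, ?_, le_rfl, zero_le_one, ?_⟩
    · rw [h]; simp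
    · rw [h]; simp
    · rw [S_of_le y x M h.symm.le]; ring
  · have hk1 : ((⌊x⌋₊ : ℕ) : ℝ) ≤ x := Nat.floor_le h0
    have hk2 : x < (⌊x⌋₊ : ℕ) + 1 := Nat.lt_floor_add_one x
    have hk3 : ⌊x⌋₊ < M := by
      have : ((⌊x⌋₊ : ℕ) : ℝ) < M := lt_of_le_of_lt hk1 h
      exact_mod_cast this
    refine ⟨⌊x⌋₊, ⌊x⌋₊ + 1, x - ⌊x⌋₊, hk3.le, hk3, ?_, ?_, by linarith, by linarith, ?_⟩
    · rw [abs_le]; constructor <;> linarith
    · push_cast; rw [abs_le]; constructor <;> linarith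
    · rw [S_of_lt y x _ hk1 hk2 M hk3]
      ring

theorem conv_lt (w v E a1 a2 a3 a4 : ℝ) (hw0 : 0 ≤ w) (hw1 : w ≤ 1) (hv0 : 0 ≤ v) (hv1 : v ≤ 1)
    (h1 : |a1| < E) (h2 : |a2| < E) (h3 : |a3| < E) (h4 : |a4| < E) :
    |(1 - w) * (1 - v) * a1 + (1 - w) * v * a2 + w * (1 - v) * a3 + w * v * a4| < E := by
  obtain ⟨M, hM1, hM⟩ : ∃ M : ℝ, M < E ∧ |a1| ≤ M ∧ |a2| ≤ M ∧ |a3| ≤ M ∧ |a4| ≤ M := by
    refine ⟨max (max |a1| |a2|) (max |a3| |a4|), ?_, ?_, ?_, ?_, ?_⟩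
    · exact max_lt (max_lt h1 h2) (max_lt h3 h4)
    · exact (le_max_left _ _).trans (le_max_left _ _)
    · exact (le_max_right _ _).trans (le_max_left _ _)
    · exact (le_max_left _ _).trans (le_max_right _ _)
    · exact (le_max_right _ _).trans (le_max_right _ _)
  obtain ⟨k1, k2, k3, k4⟩ := hM
  have e1 : 0 ≤ (1 - w) * (1 - v) := mul_nonneg (by linarith) (by linarith)
  have e2 : 0 ≤ (1 - w) * v := mul_nonneg (by linarith) hv0
  have e3 : 0 ≤ w * (1 - v) := mul_nonneg hw0 (by linarith)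
  have e4 : 0 ≤ w * v := mul_nonneg hw0 hv0
  rw [abs_le] at k1 k2 k3 k4
  refine lt_of_le_of_lt ?_ hM1
  rw [abs_le]
  constructor
  · nlinarith [mul_le_mul_of_nonneg_left k1.1 e1, mul_le_mul_of_nonneg_left k2.1 e2,
      mul_le_mul_of_nonneg_left k3.1 e3, mul_le_mul_of_nonneg_left k4.1 e4]
  · nlinarith [mul_le_mul_of_nonneg_left k1.2 e1, mul_le_mul_of_nonneg_left k2.2 e2,
      mul_le_mul_of_nonneg_left k3.2 e3, mul_le_mul_of_nonneg_left k4.2 e4]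

theorem pth_eq (a : ℝ) (y : ℕ → ℝ) (M : ℕ) (s : unitInterval) :
    pth a y M s = a * S y M ((s : ℝ) * M) := rfl

theorem det (a ε δ : ℝ) (y : ℕ → ℝ) (M : ℕ) (ha : 0 < a) (hM : 4 ≤ δ * M)
    (s t : unitInterval) (hst : |(s : ℝ) - t| ≤ δ / 2)
    (h : ε ≤ |pth a y M s - pth a y M t|) :
    ∃ m m' : ℕ, m ≤ M ∧ m' ≤ M ∧ |(m : ℝ) - m'| ≤ δ * M ∧ ε * a⁻¹ ≤ |y m - y m'| := by
  have hM0 : (0 : ℝ) ≤ M := Nat.cast_nonneg M
  have hx : ∀ r : unitInterval, 0 ≤ (r : ℝ) * M ∧ (r : ℝ) * M ≤ M := by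
    intro r
    constructor
    · exact mul_nonneg r.2.1 hM0
    · have := mul_le_mul_of_nonneg_right r.2.2 hM0
      simpa using this
  obtain ⟨m, n, w, hm, hn, hmx, hnx, hw0, hw1, hw⟩ := S_conv y M _ (hx s).1 (hx s).2
  obtain ⟨p, q, v, hp, hq, hpx, hqx, hv0, hv1, hv⟩ := S_conv y M _ (hx t).1 (hx t).2
  have hd : |(s : ℝ) * M - (t : ℝ) * M| ≤ δ / 2 * M := by
    rw [← sub_mul, abs_mul, abs_of_nonneg hM0]
    exact mul_le_mul_of_nonneg_right hst hM0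
  have key : ∀ i j : ℕ, |(i : ℝ) - (s : ℝ) * M| ≤ 1 → |(j : ℝ) - (t : ℝ) * M| ≤ 1 →
      |(i : ℝ) - j| ≤ δ * M := by
    intro i j hi hj
    rw [abs_le] at hi hj hd ⊢
    constructor <;> linarith [hi.1, hi.2, hj.1, hj.2, hd.1, hd.2]
  by_contra hcon
  push Not at hcon
  have k1 := hcon m p hm hp (key m p hmx hpx)
  have k2 := hcon m q hm hq (key m q hmx hqx)
  have k3 := hcon n p hn hp (key n p hnx hpx)
  have k4 := hcon n q hn hq (key n q hnx hqx)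
  have k := conv_lt w v _ _ _ _ _ hw0 hw1 hv0 hv1 k1 k2 k3 k4
  rw [pth_eq, pth_eq, hw, hv] at h
  have e : a * ((1 - w) * y m + w * y n) - a * ((1 - v) * y p + v * y q)
      = a * ((1 - w) * (1 - v) * (y m - y p) + (1 - w) * v * (y m - y q)
        + w * (1 - v) * (y n - y p) + w * v * (y n - y q)) := by ring
  rw [e, abs_mul, abs_of_pos ha] at h
  have := mul_lt_mul_of_pos_left k ha
  have e2 : a * (ε * a⁻¹) = ε := by field_simp
  rw [e2] at this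
  linarith

theorem Ea_mono {α : Type} [Fintype α] (M : ℕ) (f g : (Fin M → α) → ℝ) (h : ∀ c, f c ≤ g c) :
    Ea M f ≤ Ea M g := by
  unfold Ea
  exact div_le_div_of_nonneg_right (Finset.sum_le_sum fun c _ => h c) (by positivity)

/-- **modulus of continuity of the polygonal paths** -/
theorem t_MODP : S_MODU → S_MODP := by
  intro H δ0 ε η hδ0 hε hη
  obtain ⟨δ, A, hδ, hA, h⟩ := H δ0 ε η hδ0 hε hη
  refine ⟨δ / 2, max A (4 / δ), by positivity, lt_max_of_lt_left hA, ?_⟩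
  intro α _ _ Y B D m0 hQ hO hB M hM
  have hm0 : (1 : ℝ) ≤ m0 := by exact_mod_cast hQ.mpos
  have hM1 : A * m0 ≤ M := (mul_le_mul_of_nonneg_right (le_max_left _ _) (by linarith)).trans hM
  have hM2 : 4 / δ * m0 ≤ M :=
    (mul_le_mul_of_nonneg_right (le_max_right _ _) (by linarith)).trans hM
  have hMpos : (0 : ℝ) < M := lt_of_lt_of_le (mul_pos hA (by linarith)) hM1
  have hM3 : 4 ≤ δ * M := by
    have h1 : 4 / δ * 1 ≤ (M : ℝ) :=
      (mul_le_mul_of_nonneg_left hm0 (by positivity)).trans hM2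
    rw [mul_one, div_le_iff₀ hδ] at h1
    linarith
  have hD : 0 < D := by
    have h1 : 0 < D * m0 := lt_of_lt_of_le (mul_pos hδ0 (pow_pos hQ.Bpos 2)) hB
    by_contra hcon
    push Not at hcon
    have := mul_nonpos_of_nonpos_of_nonneg hcon (show (0 : ℝ) ≤ m0 by linarith)
    linarith
  have hs : 0 < √(D * M) := Real.sqrt_pos.mpr (mul_pos hD hMpos)
  refine le_trans (Ea_mono M _ _ ?_) (h α Y B D m0 hQ hO hB M hM1)
  intro c
  split_ifs with h1 h2 h2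
  · exact le_rfl
  · exfalso
    apply h2
    obtain ⟨s, t, hst, hp⟩ := h1
    obtain ⟨m, m', hm, hm', hmm, he⟩ := det (1 / √(D * M)) ε δ (Yr Y c) M (by positivity) hM3
      s t hst hp
    refine ⟨m, m', hm, hm', hmm, ?_⟩
    have e : (1 / √(D * M))⁻¹ = √(D * M) := by simp
    rwa [e] at he
  · exact zero_le_one
  · exact le_rfl

end Pool.Agent.Y473.KW
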